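import Pool.Agent.X222.AP.Order

set_option autoImplicit false

/-!
# Progression-free sets and nondeterministic branching programs of bounded width

A relative Szemerédi theorem in the sets decided by nondeterministic branching programs of bounded
width, which may be exponentially sparse if the programs read the word in a bounded number of
passes, and of density `exp (- n ^ c)` if the programs have linear length and read the coordinates in
any order.

Proof. The levels are divided into intervals, and there are many disjoint blocks of `m` coordinates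
such that each interval meets at most one block and each block is met by boundedly many intervals.
The program depends on the letters in a block only through the relations between the nodes at the
ends of these intervals, so the contents of a block fall into boundedly many classes. Words for which
half of the blocks have a content in a small class are rare. In a large class, a progression-free set
has small density by the density Hales-Jewett theorem.
-/

namespace Pool.Agent.Results.MP_b30443_co.BoundedWidthMachines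

open Finset Pool.Agent.X222.AP

/-- `F` is decided by a nondeterministic branching program of width `w` which reads the word in `q`
passes: it has `q n` steps, and in the step `t` it reads the coordinate number `t % n` in a fixed
order `σ` of the coordinates. -/
def InPasses {p n : ℕ} (w q : ℕ) (F : Finset (Fin n → ZMod p)) : Prop :=
  ∃ (M : Program p n w) (σ : Fin n ≃ Fin n), M.levels = q * n ∧
    (∀ t < q * n, ∀ a, (σ (M.query t a) : ℕ) = t % n) ∧ ∀ x, x ∈ F ↔ M.Accepts x

/-- `F` is decided by a nondeterministic branching program of width `w` with at most `q n` steps; the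
nodes may read arbitrary coordinates. -/
def InSteps {p n : ℕ} (w q : ℕ) (F : Finset (Fin n → ZMod p)) : Prop :=
  ∃ M : Program p n w, M.levels ≤ q * n ∧ ∀ x, x ∈ F ↔ M.Accepts x

theorem relative {p : ℕ} [NeZero p] (hp : 2 ≤ p) (k : ℕ) (Λ : Set (ZMod p))
    (h0 : (0 : ZMod p) ∈ Λ) (h1 : (1 : ZMod p) ∈ Λ) (w q : ℕ) (hw : 1 ≤ w) (hq : 1 ≤ q) (δ : ℝ)
    (hδ : 0 < δ) : ∃ C : ℕ, ∀ (n t : ℕ) (S F : Finset (Fin n → ZMod p)), APFree k Λ S →
      (C * t ≤ n ∧ InPasses w q F) ∨ (C * t ^ (2 * w * q) ≤ n ∧ InSteps w q F) →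
      ((S ∩ F).card : ℝ) ≤ δ * F.card + p ^ n / 2 ^ t := by
  have hpR : (1 : ℝ) ≤ p := by exact_mod_cast (by omega : 1 ≤ p)
  have hp0 : (0 : ℝ) < p := by linarith
  -- one density for both cases
  obtain ⟨N, hN⟩ : ∃ N : ℕ, N = 2 ^ (w * w * (2 * w * q)) := ⟨_, rfl⟩
  have hN0 : (0 : ℝ) < N := by
    have : 0 < N := by rw [hN]; positivity
    exact_mod_cast this
  obtain ⟨m, R, hm, hR, hRδ⟩ := dens hp k h0 h1 (δ := δ / (32 * N)) (by positivity)
  have hpm : (0 : ℝ) < p ^ m := by positivity
  have hRN : 32 * (N : ℝ) * (R / p ^ m) ≤ δ := by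
    have h2 : (R : ℝ) / p ^ m ≤ δ / (32 * N) := by
      rw [div_le_iff₀ hpm]
      exact hRδ
    have h3 := mul_le_mul_of_nonneg_left h2 (by positivity : (0 : ℝ) ≤ 32 * N)
    have h4 : 32 * (N : ℝ) * (δ / (32 * N)) = δ := by field_simp
    linarith
  set D := 2 * w * q with hD
  set C1 := 4 * D * (w * q + w + 2) with hC1
  refine ⟨m + 4 * m * (C1 + 1) ^ D, fun n t S F hS hcase => ?_⟩
  have hF0 : (0 : ℝ) ≤ F.card := Nat.cast_nonneg _
  have hpn : (0 : ℝ) < p ^ n := by positivity
  rcases hcase with ⟨ht, M, σ, hL, hσ, hM⟩ | ⟨ht, M, hL, hM⟩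
  · have h2 := pass_bound h0 hR hm q M σ hL hσ S F hS hM
    have h3 : ((2 ^ (w * w * q) : ℕ) : ℝ) ≤ N := by
      rw [hN]
      have : 2 ^ (w * w * q) ≤ 2 ^ (w * w * (2 * w * q)) := by
        refine Nat.pow_le_pow_right (by norm_num) (Nat.mul_le_mul_left _ ?_)
        exact Nat.le_mul_of_pos_left q (by omega)
      exact_mod_cast this
    have h4 : 32 * ((2 ^ (w * w * q) : ℕ) : ℝ) * (R / p ^ m) * F.card ≤ δ * F.card := by
      refine mul_le_mul_of_nonneg_right (le_trans ?_ hRN) hF0
      gcongr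
    have h5 : (p : ℝ) ^ n / 2 ^ (n / m) ≤ p ^ n / 2 ^ t := by
      have h6 : t ≤ n / m := by
        rw [Nat.le_div_iff_mul_le (by omega)]
        calc t * m = m * t := mul_comm _ _
          _ ≤ (m + 4 * m * (C1 + 1) ^ D) * t := Nat.mul_le_mul_right t (Nat.le_add_right _ _)
          _ ≤ n := ht
      have h7 : (2 : ℝ) ^ t ≤ 2 ^ (n / m) := pow_le_pow_right₀ (by norm_num) h6
      gcongr
    linarith
  · have h2 := order_bound (J := t) h0 hR hm hw hq M hL (by
      by_cases ht0 : t = 0
      · exact Or.inl ht0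
      · right
        have ht1 : 1 ≤ t := Nat.one_le_iff_ne_zero.2 ht0
        have h3 : C1 * t + 1 ≤ (C1 + 1) * t := by
          rw [add_mul, one_mul]
          omega
        calc 4 * (m * (C1 * t + 1) ^ D) ≤ 4 * (m * ((C1 + 1) * t) ^ D) := by gcongr
          _ = 4 * m * (C1 + 1) ^ D * t ^ D := by rw [mul_pow]; ring
          _ ≤ (m + 4 * m * (C1 + 1) ^ D) * t ^ D := Nat.mul_le_mul_right _ (Nat.le_add_left _ _)
          _ ≤ n := ht) S F hS hM
    rw [← hN] at h2
    have h4 : 32 * (N : ℝ) * (R / p ^ m) * F.card ≤ δ * F.card :=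
      mul_le_mul_of_nonneg_right hRN hF0
    linarith

/-- **Theorem.** Let `p ≥ 2`, `0, 1 ∈ Λ ⊆ ℤ/p`, `w, q ≥ 1` and `δ > 0`. There is `C` such that the
following holds for all `n` and `t`.
(1) If `C t ≤ n`, `F ⊆ (ℤ/p)^n` is decided by a nondeterministic branching program of width `w` in `q`
passes, and `S ⊆ (ℤ/p)^n` contains no `k`-term progression with nonzero difference in `Λ^n`, then
`|S ∩ F| ≤ δ |F| + p^n / 2^t`.
(2) The same holds if `C t^(2 w q) ≤ n` and `F` is decided by a nondeterministic branching program of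
width `w` with at most `q n` steps, which may read the coordinates in any order.
(3), (4) If such a set `A` is the union of `T` sets as in (1) or as in (2), then
`|A| ≤ 2 T p^n / 2^t` (with `C` for `δ = 1 / 2`). -/
theorem result (p : ℕ) [NeZero p] (hp : 2 ≤ p) (k : ℕ) (Λ : Set (ZMod p))
    (h0 : (0 : ZMod p) ∈ Λ) (h1 : (1 : ZMod p) ∈ Λ) (w q : ℕ) (hw : 1 ≤ w) (hq : 1 ≤ q) :
    (∀ δ : ℝ, 0 < δ → ∃ C : ℕ, ∀ (n t : ℕ) (S F : Finset (Fin n → ZMod p)), APFree k Λ S →
      (C * t ≤ n → InPasses w q F → ((S ∩ F).card : ℝ) ≤ δ * F.card + p ^ n / 2 ^ t) ∧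
      (C * t ^ (2 * w * q) ≤ n → InSteps w q F →
        ((S ∩ F).card : ℝ) ≤ δ * F.card + p ^ n / 2 ^ t)) ∧
    ∃ C : ℕ, ∀ (n t T : ℕ) (A : Finset (Fin n → ZMod p)) (F : Fin T → Finset (Fin n → ZMod p)),
      APFree k Λ A → (∀ x, x ∈ A ↔ ∃ i, x ∈ F i) →
      (C * t ≤ n → (∀ i, InPasses w q (F i)) → (A.card : ℝ) ≤ 2 * T * (p ^ n / 2 ^ t)) ∧
      (C * t ^ (2 * w * q) ≤ n → (∀ i, InSteps w q (F i)) →
        (A.card : ℝ) ≤ 2 * T * (p ^ n / 2 ^ t)) := by
  classical
  refine ⟨fun δ hδ => ?_, ?_⟩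
  · obtain ⟨C, hC⟩ := relative hp k Λ h0 h1 w q hw hq δ hδ
    exact ⟨C, fun n t S F hS => ⟨fun ht hF => hC n t S F hS (Or.inl ⟨ht, hF⟩),
      fun ht hF => hC n t S F hS (Or.inr ⟨ht, hF⟩)⟩⟩
  · obtain ⟨C, hC⟩ := relative hp k Λ h0 h1 w q hw hq (1 / 2) (by norm_num)
    refine ⟨C, fun n t T A F hA hAF => ?_⟩
    have key : (∀ i, (((A ∩ F i).card : ℕ) : ℝ) ≤ 1 / 2 * (F i).card + p ^ n / 2 ^ t) →
        (A.card : ℝ) ≤ 2 * T * (p ^ n / 2 ^ t) := by
      intro h
      have h2 : ∀ i, ((F i).card : ℝ) ≤ 2 * (p ^ n / 2 ^ t) := by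
        intro i
        have h3 : A ∩ F i = F i := by
          rw [inter_eq_right]
          intro x hx
          exact (hAF x).2 ⟨i, hx⟩
        have h4 := h i
        rw [h3] at h4
        linarith
      have h3 : A ⊆ univ.biUnion F := by
        intro x hx
        obtain ⟨i, hi⟩ := (hAF x).1 hx
        exact mem_biUnion.2 ⟨i, mem_univ _, hi⟩
      calc (A.card : ℝ) ≤ ((univ.biUnion F).card : ℝ) := by exact_mod_cast card_le_card h3
        _ ≤ ((∑ i, (F i).card : ℕ) : ℝ) := by exact_mod_cast card_biUnion_le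
        _ = ∑ i, ((F i).card : ℝ) := by push_cast; rfl
        _ ≤ ∑ _i : Fin T, 2 * ((p : ℝ) ^ n / 2 ^ t) := sum_le_sum fun i _ => h2 i
        _ = _ := by rw [sum_const, card_univ, Fintype.card_fin, nsmul_eq_mul]; ring
    exact ⟨fun ht hF => key fun i => hC n t A (F i) hA (Or.inl ⟨ht, hF i⟩),
      fun ht hF => key fun i => hC n t A (F i) hA (Or.inr ⟨ht, hF i⟩)⟩

end Pool.Agent.Results.MP_b30443_co.BoundedWidthMachines
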