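import Pool.Agent.X222.AP.Main

set_option autoImplicit false

/-!
# Progression-free sets and circuits of constant depth

Progression-free subsets of `(ℤ/p)^n` which are unions of sets decided by circuits of constant depth
are exponentially small up to `loss`, and the sets decided by such circuits satisfy the relative form
of Szemerédi's theorem: every progression-free set has relative density at most `δ` in every such set
with more than `p ^ n 2 ^ (2 ℓ + O(1) - c n / loss)` elements. It is enough to exclude the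
progressions whose difference has all its coordinates in `{0, 1}`.

Proof. Two random words `x`, `y` are mixed along blocks of `m` coordinates, which gives a Boolean
circuit whose inputs are the blocks. If a word of the set `F` decided by the circuit has many blocks
which can be changed so that the word leaves `F`, then for a random `y` the circuit is sensitive at
many of its inputs; such inputs are exponentially rare by the switching lemma. So most words of `F`
lie, for almost all blocks, in a copy of `(ℤ/p)^m` contained in `F`, where a progression-free set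
has density at most `R / p ^ m`, and this is small by the density Hales-Jewett theorem.
-/

namespace Pool.Agent.Results.MP_b30443_co.ConstantDepthCircuits

open Finset Pool.Agent.X222.AP

/-- **Theorem.** Let `p ≥ 2` and let `Λ ⊆ ℤ/p` contain `0` and `1`.
(1) If a set `A ⊆ (ℤ/p)^n` without `k`-term progressions with nonzero difference in `Λ^n` is the
union of `T` sets decided by circuits of depth at most `d` with at most `2 ^ ℓ` nodes, then
`|A| ≤ T p^(n+1) 2^(2 ℓ + 7 - n / (2 p loss))`.
(2) If such subsets of `(ℤ/p)^m` have at most `R` elements, then for every such `S ⊆ (ℤ/p)^n`, every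
set `F` decided by such a circuit and every `ε ∈ (0, 1]`,
`|S ∩ F| ≤ (1 + ε) (R / p^m) |F| + p^(m+n) 2^(2 ℓ + 8 - ε ⌊n/m⌋ / (4 p^m loss))`.
(3) For every `δ > 0` there is `c > 0`, which depends on `p, k, Λ, δ` only, with
`|S ∩ F| ≤ δ |F| + p^n 2^(2 ℓ + 1/c - c n / loss)` for all `n, w, ℓ, d` and all such `S, F`. -/
theorem result (p : ℕ) [NeZero p] (hp : 2 ≤ p) (k : ℕ) (Λ : Set (ZMod p))
    (h0 : (0 : ZMod p) ∈ Λ) (h1 : (1 : ZMod p) ∈ Λ) :
    (∀ n w ℓ d T : ℕ, 1 ≤ w →
      ∀ (A : Finset (Fin n → ZMod p)) (F : Fin T → Finset (Fin n → ZMod p)),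
        APFree k Λ A → (∀ i, Decided w ℓ d (F i)) → (∀ x, x ∈ A ↔ ∃ i, x ∈ F i) →
        (A.card : ℝ) ≤
          T * (p ^ (n + 1) * (2 : ℝ) ^ (2 * ℓ + 7 - n / (2 * p * loss w ℓ d) : ℝ))) ∧
    (∀ n m w ℓ d R : ℕ, 1 ≤ w →
      (∀ A : Finset (Fin m → ZMod p), APFree k Λ A → A.card ≤ R) →
      ∀ S F : Finset (Fin n → ZMod p), APFree k Λ S → Decided w ℓ d F →
        ∀ ε : ℝ, 0 < ε → ε ≤ 1 →
          ((S ∩ F).card : ℝ) ≤ (1 + ε) * (R / p ^ m) * F.card + p ^ (m + n) *
            (2 : ℝ) ^ (2 * ℓ + 8 - ε * (n / m : ℕ) / (4 * p ^ m * loss w ℓ d) : ℝ)) ∧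
    (∀ δ : ℝ, 0 < δ → ∃ c : ℝ, 0 < c ∧ ∀ n w ℓ d : ℕ, 1 ≤ w →
      ∀ S F : Finset (Fin n → ZMod p), APFree k Λ S → Decided w ℓ d F →
        ((S ∩ F).card : ℝ) ≤ δ * F.card +
          p ^ n * (2 : ℝ) ^ (2 * ℓ + 1 / c - c * n / loss w ℓ d : ℝ)) :=
  ⟨fun _ _ _ _ _ hw A F hA hF hAF => union_bound k h0 h1 hp hw A F hA hF hAF,
    fun _ _ _ _ _ _ hw hR S F hS hF _ hε hε1 => relative k h0 hw hR S F hS hF hε hε1,
    fun _ hδ => relative_dens hp k h0 h1 hδ⟩

end Pool.Agent.Results.MP_b30443_co.ConstantDepthCircuits
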