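import Pool.Agent.X49.Alg.NormPoly

set_option autoImplicit false

/-!
# The number and the degree of equations of progression-free sets

Let `2 ≤ k ≤ p`. A set `A ⊆ F_p^n` has type `(s, D)` if membership is a function of the values of
`s` polynomials of degree at most `D`. Put `w(k, D) = D + (D - 1) + (D - 2) + …` (`k - 1` terms,
with natural subtraction), so `w(k, D) = D (D + 1) / 2` for `D < k`. Every point of a set `A` of
type `(s, D)` is the first term of at least `p ^ (n - s w(k, D))` progressions of length `k` in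
`A`; so a set without nontrivial `k`-term progressions has no nonempty subset of type `(s, D)` with
`s w(k, D) < n`. For `D < k` this is best possible for all `n` and `s`.
-/

namespace Pool.Agent.Results.MP_b30443_co.EquationDegree

open MvPolynomial

/-- `A ⊆ F_p^n` contains no nontrivial `k`-term progression `x, x+y, …, x+(k-1)y` with `y ≠ 0`. -/
def APFree {p n : ℕ} (k : ℕ) (A : Set (Fin n → ZMod p)) : Prop :=
  ∀ x y : Fin n → ZMod p, (∀ i : ℕ, i < k → x + i • y ∈ A) → y = 0

/-- Membership in `A` is a function of the values of `s` polynomials of degree at most `D`. -/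
def OfType {p n : ℕ} [Fact p.Prime] (s D : ℕ) (A : Set (Fin n → ZMod p)) : Prop :=
  ∃ (f : Fin s → MvPolynomial (Fin n) (ZMod p)) (S : Set (Fin s → ZMod p)),
    (∀ j, (f j).totalDegree ≤ D) ∧ ∀ y, y ∈ A ↔ (fun j => eval y (f j)) ∈ S

/-- `w(k, D) = D + (D - 1) + ⋯`, `k - 1` terms, with natural subtraction. -/
def w (k D : ℕ) : ℕ := ∑ j ∈ Finset.range (k - 1), (D - j)

theorem two_w {k D : ℕ} (h : D < k) : 2 * w k D = D * (D + 1) := by
  have h1 : w k D = ∑ j ∈ Finset.range D, (D - j) := by
    unfold w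
    refine (Finset.sum_subset (Finset.range_mono (by omega)) fun j _ hj => ?_).symm
    rw [Finset.mem_range, not_lt] at hj
    omega
  have h2 : ∀ D : ℕ, 2 * ∑ j ∈ Finset.range D, (D - j) = D * (D + 1) := by
    intro D
    induction D with
    | zero => rfl
    | succ D ih =>
      rw [Finset.sum_range_succ']
      have e : ∑ j ∈ Finset.range D, (D + 1 - (j + 1)) = ∑ j ∈ Finset.range D, (D - j) :=
        Finset.sum_congr rfl fun j _ => by omega
      rw [e, Nat.mul_add, ih, Nat.sub_zero]
      ring
  rw [h1, h2]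

theorem result (p : ℕ) [Fact p.Prime] (k n s D : ℕ) (hk : 1 ≤ k) (hkp : k ≤ p) :
    -- (1) progressions through every point of a set of type `(s, D)`
    (∀ A : Set (Fin n → ZMod p), OfType s D A → ∀ x ∈ A,
      p ^ (n - s * w k D) ≤
        Nat.card {y : Fin n → ZMod p // ∀ i : ℕ, i < k → x + i • y ∈ A}) ∧
    -- (2) subsets of progression-free sets
    (∀ A B : Set (Fin n → ZMod p), APFree k A → B ⊆ A → B.Nonempty → OfType s D B →
      n ≤ s * w k D) ∧
    -- (3) degree less than `k`: the exact range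
    (D < k → 2 * w k D = D * (D + 1) ∧
      ((∃ A : Set (Fin n → ZMod p), A.Nonempty ∧ APFree k A ∧ OfType s D A) ↔
        2 * n ≤ s * (D * (D + 1)))) := by
  have h1 : ∀ A : Set (Fin n → ZMod p), OfType s D A → ∀ x ∈ A,
      p ^ (n - s * w k D) ≤
        Nat.card {y : Fin n → ZMod p // ∀ i : ℕ, i < k → x + i • y ∈ A} := by
    intro A hA x hx
    have h := Pool.Agent.X49.Alg.progs hk hkp hA hx
    simp only [Nat.cast_smul_eq_nsmul] at h
    exact h
  have h2 : ∀ A B : Set (Fin n → ZMod p), APFree k A → B ⊆ A → B.Nonempty → OfType s D B →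
      n ≤ s * w k D := by
    intro A B hA hBA ⟨x, hx⟩ hB
    by_contra hcon
    rw [not_le] at hcon
    have h := h1 B hB x hx
    have e : Nat.card {y : Fin n → ZMod p // ∀ i : ℕ, i < k → x + i • y ∈ B} ≤ 1 := by
      have : Subsingleton {y : Fin n → ZMod p // ∀ i : ℕ, i < k → x + i • y ∈ B} :=
        ⟨fun y z => Subtype.ext ((hA x y.1 fun i hi => hBA (y.2 i hi)).trans
          (hA x z.1 fun i hi => hBA (z.2 i hi)).symm)⟩
      exact Finite.card_le_one_iff_subsingleton.2 this
    have hp : 2 ≤ p := (Fact.out : p.Prime).two_le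
    have h3 : 2 ≤ p ^ (n - s * w k D) := hp.trans (Nat.le_self_pow (by omega) _)
    omega
  refine ⟨h1, h2, fun hD => ⟨two_w hD, ?_, fun hn => ?_⟩⟩
  · rintro ⟨A, hne, hA, hT⟩
    have h := h2 A A hA subset_rfl hne hT
    calc 2 * n ≤ 2 * (s * w k D) := by omega
      _ = s * (2 * w k D) := by ring
      _ = s * (D * (D + 1)) := by rw [two_w hD]
  · obtain ⟨A, h3, h4, h5⟩ := Pool.Agent.X49.Alg.exists_free p hD hkp hn
    refine ⟨A, ⟨0, h4⟩, fun x y hxy => h5 x y fun i hi => ?_, h3⟩
    rw [Nat.cast_smul_eq_nsmul]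
    exact hxy i hi

end Pool.Agent.Results.MP_b30443_co.EquationDegree
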