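import Pool.Agent.X222.AP.Poly

set_option autoImplicit false

/-!
# Progression-free sets decided by polynomials in circuits of constant depth

The sets are decided by circuits of constant depth with one additional gate on top, which may have
exponentially many wires and may be the support of a polynomial of bounded degree over any field:
for example a union, a `MOD r` gate for a prime `r`, or the condition that a weighted sum of the bits
has a given value or avoids given values.

Proof. Let `u` be random and let a random restriction leave some coordinates free. For every `j < k`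
the functions `b ↦ [u + j b ∈ F i]` on the cube are computed by Boolean circuits, so after a random
restriction they have small decision trees by the multi-switching lemma. The translations are
bijective, so at a random point `x` all functions `z ↦ [x + j z ∈ F i]`, where `z` runs through the
cube of the free coordinates, have low degree. Hence the product over `j` of the values of the
polynomial at `x + j z` has degree smaller than the dimension of the cube, and it cannot be a
function which vanishes exactly outside of `z = 0`. So `A` contains a progression which starts at `x`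
if `x ∈ A`.
-/

namespace Pool.Agent.Results.MP_b30443_co.PolynomialsOfCircuits

open Finset Pool.Agent.X222.AP

/-- `k T p^n 2^(2 ℓ + 6 - n / (k q loss))` -/
noncomputable def bound (p n k T q w ℓ d : ℕ) : ℝ :=
  k * T * (p ^ n * (2 : ℝ) ^ (2 * ℓ + 6 - n / (k * q * loss w ℓ d) : ℝ))

theorem eval_lin {K : Type} [Field K] {T : ℕ} (a : Fin T → K) (c : Fin T → K) (θ : K) :
    MvPolynomial.eval a (∑ i, MvPolynomial.C (c i) * MvPolynomial.X i - MvPolynomial.C θ) =
      ∑ i, c i * a i - θ := by
  rw [map_sub, map_sum, MvPolynomial.eval_C]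
  congr 1
  apply sum_congr rfl
  intro i _
  rw [map_mul, MvPolynomial.eval_C, MvPolynomial.eval_X]

theorem deg_lin {K : Type} [Field K] {T : ℕ} (c : Fin T → K) (θ : K) :
    (∑ i, MvPolynomial.C (c i) * MvPolynomial.X i - MvPolynomial.C θ :
      MvPolynomial (Fin T) K).totalDegree ≤ 1 := by
  refine (MvPolynomial.totalDegree_sub _ _).trans (max_le ?_ ?_)
  · refine MvPolynomial.totalDegree_finsetSum_le fun i _ => ?_
    refine (MvPolynomial.totalDegree_mul _ _).trans ?_
    rw [MvPolynomial.totalDegree_C, zero_add]
    exact (MvPolynomial.totalDegree_X (R := K) i).le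
  · rw [MvPolynomial.totalDegree_C]
    exact Nat.zero_le _

/-- **Theorem.** Let `p ≥ 2`, `k, w, T ≥ 1`, let `F 0, …, F (T - 1) ⊆ (ℤ/p)^n` be decided by circuits
of depth at most `d` with at most `2 ^ ℓ` nodes, and let `A ⊆ (ℤ/p)^n` contain no `k`-term progression
whose difference is a nonzero vector with coordinates `0` and `1`.
(1) If `A` consists of all `x` with `P ([x ∈ F 0], …, [x ∈ F (T - 1)]) ≠ 0`, where `P` is a polynomial
of degree at most `q` over a field, then `|A| ≤ k T p^n 2^(2 ℓ + 6 - n / (k q loss))`.
(2) The same with `q = r - 1` if `A` consists of all `x` with `∑_{i : x ∈ F i} c i = a`, where `r` is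
a prime and `c i, a ∈ ℤ/r`.
(3) The same if `A` consists of all `x` with `∑_{i : x ∈ F i} c i ∉ Θ`, where the `c i` are real
numbers and `Θ` is a set of at most `q` real numbers. -/
theorem result (p : ℕ) [NeZero p] (hp : 2 ≤ p) (n k T w ℓ d : ℕ) (hk : 1 ≤ k) (hT : 1 ≤ T)
    (hw : 1 ≤ w) (F : Fin T → Finset (Fin n → ZMod p)) (hF : ∀ i, Decided w ℓ d (F i))
    (A : Finset (Fin n → ZMod p)) (hA : APFree k {0, 1} A) :
    (∀ (K : Type) [Field K] (q : ℕ) (P : MvPolynomial (Fin T) K), 1 ≤ q → P.totalDegree ≤ q →
      (∀ x, x ∈ A ↔ MvPolynomial.eval (fun i => if x ∈ F i then (1 : K) else 0) P ≠ 0) →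
      (A.card : ℝ) ≤ bound p n k T q w ℓ d) ∧
    (∀ (r : ℕ) [Fact r.Prime] (c : Fin T → ZMod r) (a : ZMod r),
      (∀ x, x ∈ A ↔ ∑ i, (if x ∈ F i then c i else 0) = a) →
      (A.card : ℝ) ≤ bound p n k T (r - 1) w ℓ d) ∧
    (∀ (c : Fin T → ℝ) (q : ℕ) (Θ : Finset ℝ), 1 ≤ q → Θ.card ≤ q →
      (∀ x, x ∈ A ↔ ∑ i, (if x ∈ F i then c i else 0) ∉ Θ) →
      (A.card : ℝ) ≤ bound p n k T q w ℓ d) := by
  have main : ∀ (K : Type) [Field K] (q : ℕ) (P : MvPolynomial (Fin T) K), 1 ≤ q →
      P.totalDegree ≤ q →
      (∀ x, x ∈ A ↔ MvPolynomial.eval (fun i => if x ∈ F i then (1 : K) else 0) P ≠ 0) →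
      (A.card : ℝ) ≤ bound p n k T q w ℓ d := fun K _ q P hq hP h =>
    poly_bound hp hw hk hq hT F hF P hP A h fun x y hy hj => hA x y (fun i => hy i) hj
  have hsum : ∀ {K : Type} [Field K] (c : Fin T → K) (x : Fin n → ZMod p),
      ∑ i, c i * (if x ∈ F i then (1 : K) else 0) = ∑ i, (if x ∈ F i then c i else 0) := by
    intro K _ c x
    apply sum_congr rfl
    intro i _
    split_ifs
    · rw [mul_one]
    · rw [mul_zero]
  refine ⟨main, ?_, ?_⟩
  · intro r hr c a h
    have hr2 := hr.out.two_le
    refine main (ZMod r) (r - 1)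
      (1 - (∑ i, MvPolynomial.C (c i) * MvPolynomial.X i - MvPolynomial.C a) ^ (r - 1))
      (by omega) ?_ fun x => ?_
    · refine (MvPolynomial.totalDegree_sub _ _).trans (max_le ?_ ?_)
      · rw [MvPolynomial.totalDegree_one]
        exact Nat.zero_le _
      · refine (MvPolynomial.totalDegree_pow _ _).trans ?_
        calc (r - 1) * _ ≤ (r - 1) * 1 := Nat.mul_le_mul_left _ (deg_lin c a)
          _ = r - 1 := mul_one _
    · rw [h, map_sub, map_one, map_pow, eval_lin, hsum]
      constructor
      · intro h1
        rw [h1, sub_self, zero_pow (by omega), sub_zero]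
        exact one_ne_zero
      · intro h1
        by_contra hcon
        exact h1 (by rw [ZMod.pow_card_sub_one_eq_one (sub_ne_zero.2 hcon), sub_self])
  · intro c q Θ hq hΘ h
    refine main ℝ q
      (∏ θ ∈ Θ, (∑ i, MvPolynomial.C (c i) * MvPolynomial.X i - MvPolynomial.C θ)) hq ?_ fun x => ?_
    · refine (MvPolynomial.totalDegree_finsetProd _ _).trans ?_
      refine (sum_le_sum fun θ _ => deg_lin c θ).trans ?_
      rw [sum_const, smul_eq_mul, mul_one]
      exact hΘ
    · rw [h, map_prod, prod_ne_zero_iff]
      constructor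
      · intro h1 θ hθ
        rw [eval_lin, hsum]
        intro h2
        exact h1 (by rw [sub_eq_zero.1 h2]; exact hθ)
      · intro h1 h2
        have := h1 _ h2
        rw [eval_lin, hsum] at this
        exact this (sub_self _)

end Pool.Agent.Results.MP_b30443_co.PolynomialsOfCircuits
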